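import Mathlib

set_option autoImplicit false

open SimpleGraph

namespace Pool.Agent.Results.MP_8cd00c_co.LargeGirthFails

/-- An edge colouring of `G` with `m` colours `0, ..., m-1` (only the values on the edges of `G`
matter) is woody if no cycle of `G` is monochromatic. -/
def Woody {V : Type} (G : SimpleGraph V) (m : ℕ) (c : Sym2 V → ℕ) : Prop :=
  (∀ e ∈ G.edgeSet, c e < m) ∧
    ∀ (v : V) (w : G.Walk v v), w.IsCycle → ∀ i : ℕ, ¬ ∀ f ∈ w.edges, c f = i

/-- An edge colouring of `G` with `m` colours is strongly woody if no broken cycle of `G`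
(a cycle minus one of its edges) is monochromatic. -/
def StronglyWoody {V : Type} (G : SimpleGraph V) (m : ℕ) (c : Sym2 V → ℕ) : Prop :=
  (∀ e ∈ G.edgeSet, c e < m) ∧
    ∀ (v : V) (w : G.Walk v v), w.IsCycle → ∀ e ∈ w.edges, ∀ i : ℕ,
      ¬ ∀ f ∈ w.edges, f ≠ e → c f = i

/-- The arboricity: least number of colours of a woody colouring. -/
noncomputable def arb {V : Type} (G : SimpleGraph V) : ℕ :=
  sInf {m | ∃ c : Sym2 V → ℕ, Woody G m c}

/-- The strong arboricity: least number of colours of a strongly woody colouring. -/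
noncomputable def zeta {V : Type} (G : SimpleGraph V) : ℕ :=
  sInf {m | ∃ c : Sym2 V → ℕ, StronglyWoody G m c}

section aux

variable {V : Type}

lemma acyclic_card [Fintype V] [Nonempty V] (H : SimpleGraph V) (hH : H.IsAcyclic) :
    H.edgeSet.ncard + 1 ≤ Fintype.card V ∧
      (H.edgeSet.ncard + 1 = Fintype.card V → H.IsTree) := by
  classical
  obtain ⟨T, hHT, -, hT⟩ := (connected_top (V := V)).exists_isTree_le_of_le_of_isAcyclic
    (H := H) le_top hH
  have hc := hT.card_edgeFinset
  have hT' : T.edgeSet.ncard = T.edgeFinset.card := by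
    rw [← coe_edgeFinset, Set.ncard_coe_finset]
  have hsub : H.edgeSet ⊆ T.edgeSet := edgeSet_mono hHT
  have hle : H.edgeSet.ncard ≤ T.edgeSet.ncard := Set.ncard_le_ncard hsub (Set.toFinite _)
  refine ⟨by omega, fun h => ?_⟩
  have heq : H.edgeSet = T.edgeSet := Set.eq_of_subset_of_ncard_le hsub (by omega) (Set.toFinite _)
  have : H = T := edgeSet_inj.mp heq
  rw [this]; exact hT

lemma cycle_edge {G : SimpleGraph V} {a u v : V} (w : G.Walk a a) (hw : w.IsCycle)
    (he : s(u, v) ∈ w.edges) :
    ∃ p : G.Walk v u, p.length + 1 = w.length ∧ s(u, v) ∉ p.edges := by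
  classical
  have hu : u ∈ w.support := w.fst_mem_support_of_mem_edges he
  set w' := w.rotate u hu with hw'
  have hc' : w'.IsCycle := hw.rotate hu
  have hlen : w'.length = w.length := by simp [hw']
  have he' : s(u, v) ∈ w'.edges := (w.rotate_edges u hu).mem_iff.mpr he
  have hmem : v ∈ w'.toSubgraph.neighborSet u := by
    rw [Subgraph.mem_neighborSet, ← Subgraph.mem_edgeSet, Walk.mem_edges_toSubgraph]
    exact he'
  obtain ⟨p', hp', hsnd, hl⟩ : ∃ p' : G.Walk u u, p'.IsCycle ∧ p'.snd = v ∧
      p'.length = w.length := by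
    rw [hc'.neighborSet_toSubgraph_endpoint] at hmem
    rcases hmem with h | h
    · exact ⟨w', hc', h.symm, hlen⟩
    · refine ⟨w'.reverse, hc'.reverse, ?_, by simp [hlen]⟩
      have h' : v = w'.penultimate := h
      rw [h', Walk.penultimate, ← Walk.getVert_reverse]
  cases p' with
  | nil => exact absurd hp' (by simp)
  | cons h q =>
    rename_i b
    have hb : b = v := by simpa using hsnd
    subst hb
    refine ⟨q, by simpa using hl, ?_⟩
    exact ((Walk.cons_isCycle_iff _ _).mp hp').2

/-- Adding an edge between far-apart vertices keeps the girth large. -/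
lemma girth_sup_edge {H : SimpleGraph V} {u v : V} {g : ℕ}
    (hg : ∀ (a : V) (w : H.Walk a a), w.IsCycle → g ≤ w.length)
    (hfar : ∀ p : H.Walk v u, g ≤ p.length + 1) :
    ∀ (a : V) (w : (H ⊔ edge u v).Walk a a), w.IsCycle → g ≤ w.length := by
  intro a w hw
  by_cases he : s(u, v) ∈ w.edges
  · obtain ⟨p, hp, hpe⟩ := cycle_edge w hw he
    have hH : ∀ e ∈ p.edges, e ∈ H.edgeSet := by
      intro e hee
      have h1 := p.edges_subset_edgeSet hee
      rw [edgeSet_sup] at h1
      rcases h1 with h1 | h1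
      · exact h1
      · have h2 : e = s(u, v) := by
          have := edgeSet_edge_subset h1
          simpa using this
        rw [h2] at hee
        exact absurd hee hpe
    have := hfar (p.transfer H hH)
    rw [Walk.length_transfer] at this
    omega
  · have hH : ∀ e ∈ w.edges, e ∈ H.edgeSet := by
      intro e hee
      have h1 := w.edges_subset_edgeSet hee
      rw [edgeSet_sup] at h1
      rcases h1 with h1 | h1
      · exact h1
      · have h2 : e = s(u, v) := by
          have := edgeSet_edge_subset h1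
          simpa using this
        rw [h2] at hee
        exact absurd hee he
    have := hg a (w.transfer H hH) (hw.transfer hH)
    rwa [Walk.length_transfer] at this

/-- Balls of radius `r`. -/
noncomputable def ball [Fintype V] (G : SimpleGraph V) (u : V) : ℕ → Finset V
  | 0 => {u}
  | (r + 1) => by
      classical
      exact ball G u r ∪ (ball G u r).biUnion fun x => (G.neighborSet x).toFinite.toFinset

lemma ball_card [Fintype V] (G : SimpleGraph V) (D : ℕ)
    (hD : ∀ v, (G.neighborSet v).ncard ≤ D) (u : V) (r : ℕ) :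
    (ball G u r).card ≤ (D + 1) ^ r := by
  classical
  induction r with
  | zero => simp [ball]
  | succ r ih =>
    have h1 : (ball G u (r + 1)).card ≤ (ball G u r).card + (ball G u r).card * D := by
      rw [ball]
      refine (Finset.card_union_le _ _).trans ?_
      gcongr
      refine Finset.card_biUnion_le_card_mul _ _ _ fun x _ => ?_
      have := hD x
      rwa [Set.ncard_eq_toFinset_card _ (Set.toFinite _)] at this
    calc (ball G u (r + 1)).card ≤ (ball G u r).card + (ball G u r).card * D := h1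
      _ = (ball G u r).card * (D + 1) := by ring
      _ ≤ (D + 1) ^ r * (D + 1) := Nat.mul_le_mul_right _ ih
      _ = (D + 1) ^ (r + 1) := by rw [pow_succ]

lemma ball_mono [Fintype V] (G : SimpleGraph V) (u : V) {r s : ℕ} (h : r ≤ s) :
    ball G u r ⊆ ball G u s := by
  classical
  induction s, h using Nat.le_induction with
  | base => exact subset_rfl
  | succ s _ ih =>
    refine ih.trans ?_
    conv_rhs => rw [ball]
    exact Finset.subset_union_left

lemma mem_ball_of_walk [Fintype V] (G : SimpleGraph V) (u : V) {a b : V} (w : G.Walk a b) :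
    ∀ r, a ∈ ball G u r → b ∈ ball G u (r + w.length) := by
  classical
  induction w with
  | nil => intro r h; simpa using h
  | @cons x y z h p ih =>
    intro r ha
    have h1 : y ∈ ball G u (r + 1) := by
      rw [ball]
      refine Finset.mem_union_right _ (Finset.mem_biUnion.mpr ⟨x, ha, ?_⟩)
      simpa using h
    have h2 := ih (r + 1) h1
    rw [Walk.length_cons]
    convert h2 using 2
    ring

lemma sum_ncard_neighborSet [Fintype V] [Nonempty V] (F : SimpleGraph V) (hF : F.IsAcyclic) :
    ∑ v, (F.neighborSet v).ncard + 2 ≤ 2 * Fintype.card V := by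
  classical
  have h1 := (acyclic_card F hF).1
  have h2 := F.sum_degrees_eq_twice_card_edges
  have h3 : F.edgeSet.ncard = F.edgeFinset.card := by
    rw [← coe_edgeFinset, Set.ncard_coe_finset]
  have h4 : ∑ v, (F.neighborSet v).ncard = ∑ v, F.degree v := by
    refine Finset.sum_congr rfl fun v _ => ?_
    rw [Set.ncard_eq_toFinset_card', ← card_neighborSet_eq_degree, Set.toFinset_card]
  omega

/-- A nonempty vertex set closed under adjacency in a forest contains a vertex of degree at
most one. -/
lemma exists_low [Fintype V] (F : SimpleGraph V) (hF : F.IsAcyclic) (A : Set V)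
    (hA : A.Nonempty) (hcl : ∀ x ∈ A, ∀ y, F.Adj x y → y ∈ A) :
    ∃ u ∈ A, (F.neighborSet u).ncard ≤ 1 := by
  classical
  have : Nonempty A := hA.to_subtype
  have : Fintype A := Fintype.ofFinite _
  have h1 := sum_ncard_neighborSet (F.induce A) (hF.induce A)
  by_contra hcon
  push Not at hcon
  have h2 : ∀ a : A, 2 ≤ ((F.induce A).neighborSet a).ncard := by
    intro a
    have h3 : F.neighborSet a.1 = Subtype.val '' ((F.induce A).neighborSet a) := by
      ext y
      constructor
      · intro hy
        exact ⟨⟨y, hcl a.1 a.2 y hy⟩, hy, rfl⟩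
      · rintro ⟨z, hz, rfl⟩
        exact hz
    have h4 := hcon a.1 a.2
    rw [h3, Set.ncard_image_of_injective _ Subtype.val_injective] at h4
    omega
  have h5 : ∑ _a : A, 2 ≤ ∑ a : A, ((F.induce A).neighborSet a).ncard :=
    Finset.sum_le_sum fun a _ => h2 a
  simp only [Finset.sum_const, Finset.card_univ, smul_eq_mul] at h5
  omega

lemma step [Fintype V] (G0 F : SimpleGraph V) (D0 g : ℕ) (hF : F.IsAcyclic)
    (hnc : ¬ F.Preconnected)
    (hdegG : ∀ v, (G0.neighborSet v).ncard ≤ D0)
    (hdegF : ∀ v, (F.neighborSet v).ncard ≤ 8)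
    (hn : 4 * (D0 + 8 + 1) ^ g < Fintype.card V) :
    ∃ u v, ¬ F.Reachable u v ∧ (F.neighborSet u).ncard < 8 ∧ (F.neighborSet v).ncard < 8 ∧
      ∀ p : (G0 ⊔ F).Walk v u, g ≤ p.length + 1 := by
  classical
  have hnc' : ∃ x y, ¬ F.Reachable x y := by
    by_contra h
    push Not at h
    exact hnc h
  obtain ⟨x, y, hxy⟩ := hnc'
  have : Nonempty V := ⟨x⟩
  -- a closed set of at most half the vertices
  have hA : ∃ A : Set V, A.Nonempty ∧ (∀ a ∈ A, ∀ b, F.Adj a b → b ∈ A) ∧
      2 * A.ncard ≤ Fintype.card V := by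
    set X : Set V := {z | F.Reachable x z} with hX
    have hXc : ∀ a ∈ X, ∀ b, F.Adj a b → b ∈ X := fun a ha b hab =>
      Reachable.trans ha hab.reachable
    have hsum : X.ncard + Xᶜ.ncard = Fintype.card V := by
      rw [Set.ncard_add_ncard_compl, Nat.card_eq_fintype_card]
    by_cases hh : 2 * X.ncard ≤ Fintype.card V
    · exact ⟨X, ⟨x, Reachable.refl x⟩, hXc, hh⟩
    · refine ⟨Xᶜ, ⟨y, hxy⟩, ?_, by omega⟩
      intro a ha b hab hb
      exact ha (hXc b hb a hab.symm)
  obtain ⟨A, hAne, hAcl, hAcard⟩ := hA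
  obtain ⟨u, huA, hu⟩ := exists_low F hF A hAne hAcl
  have hwalk : ∀ (a b : V) (w : F.Walk a b), a ∈ A → b ∈ A := by
    intro a b w
    induction w with
    | nil => exact id
    | cons h p ih => exact fun ha => ih (hAcl _ ha _ h)
  set high : Finset V := Finset.univ.filter fun v => 8 ≤ (F.neighborSet v).ncard with hhigh
  have hsum := sum_ncard_neighborSet F hF
  have hhighcard : 4 * high.card ≤ Fintype.card V := by
    have h1 : high.card * 8 ≤ ∑ v ∈ high, (F.neighborSet v).ncard := by
      rw [← smul_eq_mul]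
      exact Finset.card_nsmul_le_sum _ _ _ fun v hv => (Finset.mem_filter.mp hv).2
    have h2 : ∑ v ∈ high, (F.neighborSet v).ncard ≤ ∑ v, (F.neighborSet v).ncard :=
      Finset.sum_le_sum_of_subset (Finset.subset_univ _)
    omega
  have hdeg : ∀ v, ((G0 ⊔ F).neighborSet v).ncard ≤ D0 + 8 := by
    intro v
    have h1 : (G0 ⊔ F).neighborSet v = G0.neighborSet v ∪ F.neighborSet v := by
      ext z; simp [mem_neighborSet]
    rw [h1]
    exact (Set.ncard_union_le _ _).trans (Nat.add_le_add (hdegG v) (hdegF v))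
  have hball := ball_card (G0 ⊔ F) (D0 + 8) hdeg u g
  have hAc : ∃ v, v ∉ A ∧ v ∉ high ∧ v ∉ ball (G0 ⊔ F) u g := by
    by_contra hcon
    push Not at hcon
    have hcover : (Finset.univ : Finset V) ⊆ A.toFinset ∪ high ∪ ball (G0 ⊔ F) u g := by
      intro v _
      by_cases h1 : v ∈ A
      · simp [h1]
      by_cases h2 : v ∈ high
      · simp [h2]
      · simp [hcon v h1 h2]
    have h1 := Finset.card_le_card hcover
    have h2 := Finset.card_union_le (A.toFinset ∪ high) (ball (G0 ⊔ F) u g)
    have h3 := Finset.card_union_le A.toFinset high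
    have h4 : A.toFinset.card = A.ncard := (Set.ncard_eq_toFinset_card' A).symm
    rw [Finset.card_univ] at h1
    omega
  obtain ⟨v, hvA, hvh, hvb⟩ := hAc
  refine ⟨u, v, ?_, by omega, ?_, ?_⟩
  · rintro ⟨w⟩
    exact hvA (hwalk _ _ w huA)
  · have : ¬ 8 ≤ (F.neighborSet v).ncard := by
      intro h
      exact hvh (Finset.mem_filter.mpr ⟨Finset.mem_univ _, h⟩)
    omega
  · intro p
    by_contra hlt
    push Not at hlt
    have h0 : u ∈ ball (G0 ⊔ F) u 0 := by simp [ball]
    have h1 := mem_ball_of_walk (G0 ⊔ F) u p.reverse 0 h0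
    rw [Walk.length_reverse, Nat.zero_add] at h1
    exact hvb (ball_mono _ _ (by omega) h1)

/-- A spanning tree of bounded degree, edge-disjoint from `G0`, whose addition keeps the girth
large. -/
lemma exists_tree [Fintype V] (G0 : SimpleGraph V) (D0 g : ℕ) (hg3 : 3 ≤ g)
    (hdegG : ∀ v, (G0.neighborSet v).ncard ≤ D0)
    (hgirth : ∀ (a : V) (w : G0.Walk a a), w.IsCycle → g ≤ w.length)
    (hn : 4 * (D0 + 8 + 1) ^ g < Fintype.card V) :
    ∃ T : SimpleGraph V, T.IsTree ∧ Disjoint G0 T ∧
      (∀ v, (T.neighborSet v).ncard ≤ 8) ∧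
      ∀ (a : V) (w : (G0 ⊔ T).Walk a a), w.IsCycle → g ≤ w.length := by
  classical
  have : Nonempty V := by
    rw [← Fintype.card_pos_iff]
    omega
  set P : Set (SimpleGraph V) := {F | F.IsAcyclic ∧ Disjoint G0 F ∧
    (∀ v, (F.neighborSet v).ncard ≤ 8) ∧
      ∀ (a : V) (w : (G0 ⊔ F).Walk a a), w.IsCycle → g ≤ w.length} with hP
  have hbot : (⊥ : SimpleGraph V) ∈ P := by
    refine ⟨isAcyclic_bot, disjoint_bot_right, ?_, ?_⟩
    · intro v
      have : (⊥ : SimpleGraph V).neighborSet v = ∅ := by ext; simp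
      rw [this]; simp
    · rw [sup_bot_eq]; exact hgirth
  obtain ⟨F, hFmax⟩ := (Set.toFinite P).exists_maximal ⟨_, hbot⟩
  obtain ⟨hFac, hFdisj, hFdeg, hFg⟩ := hFmax.prop
  refine ⟨F, ⟨⟨?_⟩, hFac⟩, hFdisj, hFdeg, hFg⟩
  by_contra hnc
  obtain ⟨u, v, hnr, hdu, hdv, hfar⟩ := step G0 F D0 g hFac hnc hdegG hFdeg hn
  have hne : u ≠ v := by
    rintro rfl
    exact hnr (Reachable.refl u)
  have hnadjG : ¬ G0.Adj u v := by
    intro h
    have h' : (G0 ⊔ F).Adj v u := Or.inl h.symm
    have := hfar h'.toWalk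
    simp at this
    omega
  have hmem : F ⊔ edge u v ∈ P := by
    refine ⟨hFac.sup_edge_of_not_reachable hnr, ?_, ?_, ?_⟩
    · rw [disjoint_sup_right]
      exact ⟨hFdisj, (disjoint_edge _).mpr hnadjG⟩
    · intro z
      by_cases hzu : z = u
      · have hsub : (F ⊔ edge u v).neighborSet z ⊆ F.neighborSet z ∪ {v} := by
          intro y hy
          rw [mem_neighborSet, sup_adj, edge_adj] at hy
          rcases hy with hy | ⟨⟨_, h2⟩ | ⟨h1, _⟩, _⟩
          · exact Or.inl hy
          · exact Or.inr h2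
          · exact absurd (hzu.symm.trans h1) hne
        refine (Set.ncard_le_ncard hsub (Set.toFinite _)).trans ?_
        refine (Set.ncard_union_le _ _).trans ?_
        rw [Set.ncard_singleton, hzu]; omega
      · by_cases hzv : z = v
        · have hsub : (F ⊔ edge u v).neighborSet z ⊆ F.neighborSet z ∪ {u} := by
            intro y hy
            rw [mem_neighborSet, sup_adj, edge_adj] at hy
            rcases hy with hy | ⟨⟨h1, _⟩ | ⟨_, h2⟩, _⟩
            · exact Or.inl hy
            · exact absurd h1 hzu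
            · exact Or.inr h2
          refine (Set.ncard_le_ncard hsub (Set.toFinite _)).trans ?_
          refine (Set.ncard_union_le _ _).trans ?_
          rw [Set.ncard_singleton, hzv]; omega
        · have hsub : (F ⊔ edge u v).neighborSet z ⊆ F.neighborSet z := by
            intro y hy
            rw [mem_neighborSet, sup_adj, edge_adj] at hy
            rcases hy with hy | ⟨⟨h1, _⟩ | ⟨h1, _⟩, _⟩
            · exact hy
            · exact absurd h1 hzu
            · exact absurd h1 hzv
          exact (Set.ncard_le_ncard hsub (Set.toFinite _)).trans (hFdeg z)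
    · rw [← sup_assoc]
      exact girth_sup_edge hFg hfar
  have hle : F ⊔ edge u v ≤ F := hFmax.le_of_ge hmem le_sup_left
  have hadj : F.Adj u v := hle (by rw [sup_adj, edge_adj]; exact Or.inr ⟨Or.inl ⟨rfl, rfl⟩, hne⟩)
  exact hnr hadj.reachable

/-- The colour class `i`. -/
def cls (G : SimpleGraph V) (c : Sym2 V → ℕ) (i : ℕ) : SimpleGraph V where
  Adj x y := G.Adj x y ∧ c s(x, y) = i
  symm := ⟨fun x y h => ⟨h.1.symm, by rw [Sym2.eq_swap]; exact h.2⟩⟩
  loopless := ⟨fun x h => G.loopless.irrefl x h.1⟩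

lemma cls_le (G : SimpleGraph V) (c : Sym2 V → ℕ) (i : ℕ) : cls G c i ≤ G := fun _ _ h => h.1

lemma mem_cls_edgeSet (G : SimpleGraph V) (c : Sym2 V → ℕ) (i : ℕ) (e : Sym2 V) :
    e ∈ (cls G c i).edgeSet ↔ e ∈ G.edgeSet ∧ c e = i := by
  induction e using Sym2.ind with
  | _ x y => rfl

lemma cls_sup_left (G T : SimpleGraph V) (c : Sym2 V → ℕ) (k i : ℕ) (hik : i < k)
    (c' : Sym2 V → ℕ)
    (hT : ∀ e ∈ T.edgeSet, c' e = k) (hG : ∀ e ∈ G.edgeSet, c' e = c e) :
    cls (G ⊔ T) c' i = cls G c i := by
  rw [← edgeSet_inj]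
  ext e
  rw [mem_cls_edgeSet, mem_cls_edgeSet, edgeSet_sup]
  constructor
  · rintro ⟨h1 | h1, h2⟩
    · exact ⟨h1, by rw [← hG e h1]; exact h2⟩
    · rw [hT e h1] at h2; omega
  · rintro ⟨h1, h2⟩
    exact ⟨Or.inl h1, by rw [hG e h1]; exact h2⟩

lemma cls_sup_right (G T : SimpleGraph V) (c : Sym2 V → ℕ) (k : ℕ)
    (hc : ∀ e ∈ G.edgeSet, c e < k) (c' : Sym2 V → ℕ)
    (hT : ∀ e ∈ T.edgeSet, c' e = k) (hG : ∀ e ∈ G.edgeSet, c' e = c e) :
    cls (G ⊔ T) c' k = T := by
  rw [← edgeSet_inj]
  ext e
  rw [mem_cls_edgeSet, edgeSet_sup]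
  constructor
  · rintro ⟨h1 | h1, h2⟩
    · have := hc e h1
      rw [hG e h1] at h2
      omega
    · exact h1
  · intro h1
    exact ⟨Or.inr h1, hT e h1⟩

/-- `k` edge-disjoint spanning trees whose union has bounded degree and large girth. -/
lemma exists_trees [Fintype V] (g : ℕ) (hg3 : 3 ≤ g) (k : ℕ)
    (hn : 4 * (8 * k + 8 + 1) ^ g < Fintype.card V) :
    ∃ (G : SimpleGraph V) (c : Sym2 V → ℕ), (∀ e ∈ G.edgeSet, c e < k) ∧
      (∀ i < k, (cls G c i).IsTree) ∧ (∀ v, (G.neighborSet v).ncard ≤ 8 * k) ∧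
      ∀ (a : V) (w : G.Walk a a), w.IsCycle → g ≤ w.length := by
  classical
  induction k with
  | zero =>
    refine ⟨⊥, fun _ => 0, ?_, ?_, ?_, ?_⟩
    · intro e he; simp at he
    · intro i hi; omega
    · intro v
      have : (⊥ : SimpleGraph V).neighborSet v = ∅ := by ext; simp
      rw [this]; simp
    · intro a w hw
      exact absurd hw (isAcyclic_bot w)
  | succ k ih =>
    have hn' : 4 * (8 * k + 8 + 1) ^ g < Fintype.card V := by
      refine lt_of_le_of_lt ?_ hn
      gcongr
      omega
    obtain ⟨G, c, hc, htree, hdeg, hgirth⟩ := ih hn'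
    obtain ⟨T, hT, hdisj, hTdeg, hTg⟩ := exists_tree G (8 * k) g hg3 hdeg hgirth hn'
    set c' : Sym2 V → ℕ := fun e => if e ∈ T.edgeSet then k else c e with hc'
    have hcT : ∀ e ∈ T.edgeSet, c' e = k := fun e he => by simp [hc', he]
    have hcG : ∀ e ∈ G.edgeSet, c' e = c e := fun e he => by
      have : e ∉ T.edgeSet := by
        rw [← disjoint_edgeSet] at hdisj
        exact Set.disjoint_left.mp hdisj he
      simp [hc', this]
    refine ⟨G ⊔ T, c', ?_, ?_, ?_, hTg⟩
    · intro e he
      rw [edgeSet_sup] at he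
      rcases he with he | he
      · rw [hcG e he]; exact (hc e he).trans (Nat.lt_succ_self k)
      · rw [hcT e he]; exact Nat.lt_succ_self k
    · intro i hi
      rcases Nat.lt_succ_iff_lt_or_eq.mp hi with h | h
      · rw [cls_sup_left G T c k i h c' hcT hcG]
        exact htree i h
      · rw [h, cls_sup_right G T c k hc c' hcT hcG]
        exact hT
    · intro v
      have h1 : (G ⊔ T).neighborSet v = G.neighborSet v ∪ T.neighborSet v := by
        ext z; simp [mem_neighborSet]
      rw [h1]
      refine (Set.ncard_union_le _ _).trans ?_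
      have := hdeg v
      have := hTdeg v
      omega

lemma acyclic_cls (G : SimpleGraph V) (c : Sym2 V → ℕ) (m i : ℕ) (h : Woody G m c) :
    (cls G c i).IsAcyclic := by
  intro v w hw
  have hsub : ∀ e ∈ w.edges, e ∈ G.edgeSet ∧ c e = i := fun e he =>
    (mem_cls_edgeSet G c i e).mp (w.edges_subset_edgeSet he)
  have hG : ∀ e ∈ w.edges, e ∈ G.edgeSet := fun e he => (hsub e he).1
  refine h.2 v (w.transfer G hG) (hw.transfer hG) i ?_
  intro f hf
  rw [Walk.edges_transfer] at hf
  exact (hsub f hf).2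

lemma edges_eq_sum [Fintype V] (G : SimpleGraph V) (c : Sym2 V → ℕ) (m : ℕ)
    (hc : ∀ e ∈ G.edgeSet, c e < m) :
    G.edgeSet.ncard = ∑ i ∈ Finset.range m, (cls G c i).edgeSet.ncard := by
  classical
  have h1 : G.edgeSet.ncard = (Finset.univ.filter fun e => e ∈ G.edgeSet).card := by
    rw [← Set.ncard_coe_finset]
    congr 1
    ext e; simp
  have h2 : ∀ i, (cls G c i).edgeSet.ncard =
      ((Finset.univ.filter fun e => e ∈ G.edgeSet).filter fun e => c e = i).card := by
    intro i
    rw [← Set.ncard_coe_finset]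
    congr 1
    ext e
    simp [mem_cls_edgeSet]
  rw [h1, Finset.card_eq_sum_card_fiberwise (f := c) (t := Finset.range m)]
  · exact Finset.sum_congr rfl fun i _ => (h2 i).symm
  · intro e he
    have : e ∈ G.edgeSet := by simpa using he
    simpa using hc e this

lemma StronglyWoody.woody {G : SimpleGraph V} {m : ℕ} {c : Sym2 V → ℕ}
    (h : StronglyWoody G m c) : Woody G m c := by
  refine ⟨h.1, ?_⟩
  intro v w hw i hi
  have hne : w.edges ≠ [] := by
    intro h0
    have : w.length = 0 := by rw [← Walk.length_edges, h0]; rfl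
    have := hw.three_le_length
    omega
  obtain ⟨e, he⟩ := List.exists_mem_of_ne_nil _ hne
  exact h.2 v w hw e he i fun f hf _ => hi f hf

lemma exists_stronglyWoody [Fintype V] (G : SimpleGraph V) :
    ∃ m, ∃ c : Sym2 V → ℕ, StronglyWoody G m c := by
  classical
  refine ⟨Fintype.card (Sym2 V), fun e => (Fintype.equivFin (Sym2 V) e : ℕ), ?_, ?_⟩
  · intro e _
    exact (Fintype.equivFin (Sym2 V) e).isLt
  · intro v w hw e he i hi
    have hnd : w.edges.Nodup := hw.isTrail.edges_nodup
    have hcard : w.edges.toFinset.card = w.length := by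
      rw [List.toFinset_card_of_nodup hnd, Walk.length_edges]
    have h3 := hw.three_le_length
    have h2 : 1 < (w.edges.toFinset.erase e).card := by
      have := Finset.pred_card_le_card_erase (s := w.edges.toFinset) (a := e)
      omega
    obtain ⟨f1, hf1, f2, hf2, hne⟩ := Finset.one_lt_card.mp h2
    have e1 := hi f1 (by simpa using (Finset.mem_erase.mp hf1).2) (Finset.mem_erase.mp hf1).1
    have e2 := hi f2 (by simpa using (Finset.mem_erase.mp hf2).2) (Finset.mem_erase.mp hf2).1
    apply hne
    apply (Fintype.equivFin (Sym2 V)).injective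
    apply Fin.ext
    simp only at e1 e2
    rw [e1, e2]

/-- If two different colour classes are spanning trees the colouring is not strongly woody. -/
lemma not_stronglyWoody [Fintype V] (hV : 1 < Fintype.card V) (G : SimpleGraph V)
    (c : Sym2 V → ℕ) (m i j : ℕ) (hij : i ≠ j) (hi : (cls G c i).IsTree)
    (hj : (cls G c j).IsTree) : ¬ StronglyWoody G m c := by
  classical
  intro h
  have : Nontrivial V := Fintype.one_lt_card_iff_nontrivial.mp hV
  obtain ⟨x, y, hxy⟩ := exists_pair_ne V
  -- an edge of colour j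
  obtain ⟨p⟩ := hj.connected.preconnected x y
  have : ∃ u v, (cls G c j).Adj u v := by
    cases p with
    | nil => exact absurd rfl hxy
    | cons h _ => exact ⟨_, _, h⟩
  obtain ⟨u, v, huv⟩ := this
  obtain ⟨q, hq⟩ := (hi.connected.preconnected v u).exists_isPath
  have hsub : ∀ e ∈ q.edges, e ∈ G.edgeSet ∧ c e = i := fun e he =>
    (mem_cls_edgeSet G c i e).mp (q.edges_subset_edgeSet he)
  have hG : ∀ e ∈ q.edges, e ∈ G.edgeSet := fun e he => (hsub e he).1
  have hnot : s(u, v) ∉ (q.transfer G hG).edges := by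
    rw [Walk.edges_transfer]
    intro hmem
    have h1 := (hsub _ hmem).2
    have h2 := huv.2
    exact hij (h1.symm.trans h2)
  have hcyc : (Walk.cons huv.1 (q.transfer G hG)).IsCycle :=
    (Walk.cons_isCycle_iff _ _).mpr ⟨hq.transfer hG, hnot⟩
  refine h.2 u _ hcyc s(u, v) (by simp) i ?_
  intro f hf hfe
  rw [Walk.edges_cons, List.mem_cons] at hf
  rcases hf with hf | hf
  · exact absurd hf hfe
  · rw [Walk.edges_transfer] at hf
    exact (hsub f hf).2

end aux

/-- For every `k ≥ 2` there is a bound `D` such that for every `g` some finite connected graph of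
maximum degree at most `D` and girth at least `g` has arboricity exactly `k` but strong arboricity
larger than `k`. -/
theorem result :
    ∀ k : ℕ, 2 ≤ k → ∃ D : ℕ, ∀ g : ℕ, ∃ (n : ℕ) (G : SimpleGraph (Fin n)),
      G.Connected ∧ (∀ v, (G.neighborSet v).ncard ≤ D) ∧ (g : ℕ∞) ≤ G.egirth ∧
        arb G = k ∧ k < zeta G := by
  classical
  intro k hk
  refine ⟨8 * k, fun g => ?_⟩
  set g' := max g 3 with hg'
  set n := 4 * (8 * k + 8 + 1) ^ g' + 1 with hn
  have hcard : Fintype.card (Fin n) = n := Fintype.card_fin n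
  obtain ⟨G, c, hc, htree, hdeg, hgirth⟩ := exists_trees (V := Fin n) g' (le_max_right _ _) k
    (by rw [hcard]; omega)
  have hpos : 0 < (8 * k + 8 + 1) ^ g' := Nat.pow_pos (by omega)
  have hn1 : 1 < n := by omega
  have : Nonempty (Fin n) := ⟨⟨0, by omega⟩⟩
  -- number of edges
  have hedges : G.edgeSet.ncard = k * (n - 1) := by
    rw [edges_eq_sum G c k hc]
    have : ∀ i ∈ Finset.range k, (cls G c i).edgeSet.ncard = n - 1 := by
      intro i hi
      have h1 := (htree i (Finset.mem_range.mp hi)).card_edgeFinset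
      have h2 : (cls G c i).edgeSet.ncard = (cls G c i).edgeFinset.card := by
        rw [← coe_edgeFinset, Set.ncard_coe_finset]
      rw [hcard] at h1
      omega
    rw [Finset.sum_congr rfl this]
    simp
  -- the given colouring is woody
  have hwoody : Woody G k c := by
    refine ⟨hc, ?_⟩
    intro v w hw i hi
    have hne : w.edges ≠ [] := by
      intro h0
      have : w.length = 0 := by rw [← Walk.length_edges, h0]; rfl
      have := hw.three_le_length
      omega
    obtain ⟨e, he⟩ := List.exists_mem_of_ne_nil _ hne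
    have hik : i < k := by
      rw [← hi e he]; exact hc e (w.edges_subset_edgeSet he)
    have hmem : ∀ e ∈ w.edges, e ∈ (cls G c i).edgeSet := fun e he =>
      (mem_cls_edgeSet G c i e).mpr ⟨w.edges_subset_edgeSet he, hi e he⟩
    exact (htree i hik).isAcyclic (w.transfer _ hmem) (hw.transfer hmem)
  -- any woody colouring uses at least k colours, and with k colours all classes are trees
  have hlow : ∀ m (c' : Sym2 (Fin n) → ℕ), Woody G m c' →
      k ≤ m ∧ (m = k → ∀ i < k, (cls G c' i).IsTree) := by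
    intro m c' h'
    have h1 := edges_eq_sum G c' m h'.1
    have h2 : ∀ i ∈ Finset.range m, (cls G c' i).edgeSet.ncard ≤ n - 1 := by
      intro i _
      have := (acyclic_card _ (acyclic_cls G c' m i h')).1
      rw [hcard] at this
      omega
    have h3 : k * (n - 1) ≤ m * (n - 1) := by
      rw [← hedges, h1]
      refine (Finset.sum_le_sum h2).trans ?_
      simp
    have hkm : k ≤ m := Nat.le_of_mul_le_mul_right h3 (by omega)
    refine ⟨hkm, ?_⟩
    rintro rfl i hi
    have h4 : ∑ i ∈ Finset.range m, (cls G c' i).edgeSet.ncard =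
        ∑ _i ∈ Finset.range m, (n - 1) := by
      rw [← h1, hedges]; simp
    have h5 := (Finset.sum_eq_sum_iff_of_le h2).mp h4 i (Finset.mem_range.mpr hi)
    refine (acyclic_card _ (acyclic_cls G c' m i h')).2 ?_
    rw [hcard]
    omega
  refine ⟨n, G, ?_, hdeg, ?_, ?_, ?_⟩
  · exact (htree 0 (by omega)).connected.mono (cls_le G c 0)
  · rw [le_egirth]
    intro a w hw
    have h1 := hgirth a w hw
    have h2 : g ≤ w.length := (le_max_left g 3).trans h1
    exact_mod_cast h2
  · have hmem : k ∈ {m | ∃ c : Sym2 (Fin n) → ℕ, Woody G m c} := ⟨c, hwoody⟩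
    refine le_antisymm (Nat.sInf_le hmem) ?_
    obtain ⟨c', h'⟩ := Nat.sInf_mem (s := {m | ∃ c : Sym2 (Fin n) → ℕ, Woody G m c}) ⟨k, hmem⟩
    exact (hlow _ c' h').1
  · obtain ⟨m0, hm0⟩ := exists_stronglyWoody G
    obtain ⟨c', h'⟩ := Nat.sInf_mem
      (s := {m | ∃ c : Sym2 (Fin n) → ℕ, StronglyWoody G m c}) ⟨m0, hm0⟩
    have h1 := hlow _ c' h'.woody
    by_contra hcon
    push Not at hcon
    have h2 : zeta G = k := le_antisymm hcon h1.1
    have h3 := h1.2 h2
    exact not_stronglyWoody (by rw [hcard]; exact hn1) G c' _ 0 1 (by omega) (h3 0 (by omega))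
      (h3 1 (by omega)) h'

end Pool.Agent.Results.MP_8cd00c_co.LargeGirthFails
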